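import Pool.Agent.AT10.Stmts1
import Pool.Agent.Helper25_AT8.IDP

/-!
# Squad AT10, row IDL: the algebra of a primitive idempotent is local
-/

open scoped BigOperators

noncomputable section

namespace Pool.Agent.PP.T10.H25

open Pool.Agent.Helper51_AWC Pool.Agent.Helper79_WRA Pool.Agent.PP Pool.Agent.PP.KF
open Pool.Agent.PP.K9 Pool.Agent.PP.K9.H97 Pool.Agent.PP.H75 Pool.Agent.PP.T3 Pool.Agent.PP.T2
open Pool.Agent.PP.T5 Pool.Agent.PP.TB
open Pool.Agent.PP.T8 (rs pw fv rd Ip Rv)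
open Pool.Agent.PP.T8.H25 (pw_zero pw_succ pw_add)

attribute [local instance] Ideal.Quotient.field

section

variable {F G : Type} [Field F] [Group G] [Finite G]

/-- `a` is invariant under `P` -/
def Iv (P : Subgroup G) (a : G → F) : Prop := ∀ v ∈ P, ∀ g, a (v * g * v⁻¹) = a g

omit [Field F] [Finite G] in
theorem iv_iff (P : Subgroup G) (a : G → F) : Iv P a ↔ ∀ v ∈ P, cj v⁻¹ a = a := by
  constructor
  · intro h v hv
    funext g
    have := h v hv g
    change a (v⁻¹⁻¹ * g * v⁻¹) = a g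
    rwa [inv_inv]
  · intro h v hv g
    have := congrFun (h v hv) g
    change a (v⁻¹⁻¹ * g * v⁻¹) = a g at this
    rwa [inv_inv] at this

theorem iv_mul {P : Subgroup G} {a b : G → F} (ha : Iv P a) (hb : Iv P b) : Iv P (mulF a b) := by
  rw [iv_iff] at ha hb ⊢
  intro v hv
  rw [cj_mulF, ha v hv, hb v hv]

theorem iv_pw {P : Subgroup G} {x : G → F} (hx : Iv P x) (n : ℕ) : Iv P (pw x n) := by
  induction n with
  | zero =>
    intro v hv g
    change dl F (1 : G) (v * g * v⁻¹) = dl F (1 : G) g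
    unfold dl
    by_cases h : g = 1
    · subst h
      simp
    · rw [if_neg h, if_neg]
      intro h1
      apply h
      have h2 : v * g = v := by
        rw [mul_inv_eq_one] at h1
        exact h1
      exact mul_eq_left.1 h2
  | succ n ih => exact iv_mul hx ih

theorem pw_one (x : G → F) : pw x 1 = x := by
  rw [pw_succ, pw_zero, H46.mulF_one]

theorem pw_succ' (x : G → F) (n : ℕ) : pw x (n + 1) = mulF (pw x n) x := by
  rw [← pw_add, pw_one]

end

theorem idl (idp : T8.IdpStmt) : IdlStmt := by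
  intro ℓ F _ hF G _ _ P i hi x hx hix hxi
  obtain ⟨n, hn, he⟩ := idp ℓ F hF G x
  obtain ⟨m, rfl⟩ : ∃ m, n = m + 1 := ⟨n - 1, by omega⟩
  have hiv : Iv P (pw x (m + 1)) := iv_pw hx _
  have h1 : mulF i (pw x (m + 1)) = pw x (m + 1) := by
    rw [pw_succ, ← mulF_assoc, hix]
  have h2 : mulF (pw x (m + 1)) i = pw x (m + 1) := by
    rw [pw_succ', mulF_assoc, hxi]
  rcases hi.pr _ he hiv h1 h2 with h | h
  · exact Or.inl ⟨m + 1, hn, h⟩
  · right
    refine ⟨mulF i (mulF (pw x m) i), iv_mul hi.iv (iv_mul (iv_pw hx _) hi.iv), ?_, ?_, ?_, ?_⟩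
    · rw [← mulF_assoc, hi.id]
    · rw [mulF_assoc, mulF_assoc, hi.id]
    · rw [← mulF_assoc, hxi, ← mulF_assoc, ← pw_succ, h, hi.id]
    · rw [mulF_assoc, mulF_assoc, hix, ← pw_succ', h, hi.id]

end Pool.Agent.PP.T10.H25
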